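import Mathlib

/-! Definitions for MP_835643_co: tropical polynomials, tropical hypersurfaces and stable
intersections. -/

set_option autoImplicit false

namespace Pool.Agent.H53.ST

/-- a tropical polynomial in `n` variables: a nonempty finite set of exponents in `ℤ ^ n`, and
real coefficients (only those of the exponents in `A` matter) -/
structure TropPoly (n : ℕ) where
  /-- the exponents -/
  A : Finset (Fin n → ℤ)
  /-- there is an exponent -/
  nonempty : A.Nonempty
  /-- the coefficients -/
  c : (Fin n → ℤ) → ℝ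

/-- the value `c_a + ⟨a, x⟩` of the term with exponent `a` -/
def TropPoly.term {n : ℕ} (f : TropPoly n) (a : Fin n → ℤ) (x : Fin n → ℝ) : ℝ :=
  f.c a + ∑ k, (a k : ℝ) * x k

/-- the tropical hypersurface: the points at which the maximum is attained at least twice -/
def TropPoly.hyp {n : ℕ} (f : TropPoly n) : Set (Fin n → ℝ) :=
  {x | ∃ a ∈ f.A, ∃ b ∈ f.A, a ≠ b ∧ (∀ e ∈ f.A, f.term e x ≤ f.term a x) ∧
    ∀ e ∈ f.A, f.term e x ≤ f.term b x}

/-- the support of the stable intersection of the hypersurfaces with indices in `J`: the points `p`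
such that for generic vectors `v` (i.e. outside the zeros of some nonzero polynomial in the
coordinates) `p` is a limit, as `ε → 0+`, of points of the intersection of the hypersurfaces
translated by `ε v j` -/
def Stable {n k : ℕ} (f : Fin k → TropPoly n) (J : Finset (Fin k)) : Set (Fin n → ℝ) :=
  {p | ∃ P : MvPolynomial (Fin k × Fin n) ℝ, P ≠ 0 ∧
    ∀ v : Fin k → Fin n → ℝ, MvPolynomial.eval (fun q => v q.1 q.2) P ≠ 0 →
      ∀ δ > 0, ∃ ε₀ > 0, ∀ ε : ℝ, 0 < ε → ε < ε₀ →
        ∃ x, ‖x - p‖ < δ ∧ ∀ j ∈ J, x - ε • v j ∈ (f j).hyp}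

end Pool.Agent.H53.ST
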