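import Pool.Agent.H53.ST.General
import Pool.Agent.H53.ST.Defs

/-! The theorem for tropical polynomials with integer exponents. -/

set_option autoImplicit false

namespace Pool.Agent.H53.ST

open Matrix Topology

/-- the exponents as real vectors -/
def castV {n : ℕ} (a : Fin n → ℤ) : V n := fun k => (a k : ℝ)

theorem castV_injective {n : ℕ} : Function.Injective (castV (n := n)) := by
  intro a b h
  funext k
  have := congrFun h k
  simpa [castV] using this

open Classical in
/-- the real exponents -/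
noncomputable def realA {n : ℕ} (f : TropPoly n) : Finset (V n) := f.A.image castV

/-- the real coefficients -/
noncomputable def realc {n : ℕ} (f : TropPoly n) : V n → ℝ := fun v => f.c fun k => ⌊v k⌋

theorem val_castV {n : ℕ} (f : TropPoly n) (a : Fin n → ℤ) (x : V n) :
    val (realc f) (castV a) x = f.term a x := by
  simp [val, realc, castV, TropPoly.term, dotProduct]

theorem castV_mem_act {n : ℕ} (f : TropPoly n) (a : Fin n → ℤ) (x : V n) :
    castV a ∈ act (realA f) (realc f) x ↔ a ∈ f.A ∧ ∀ e ∈ f.A, f.term e x ≤ f.term a x := by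
  classical
  rw [mem_act]
  constructor
  · rintro ⟨h1, h2⟩
    refine ⟨?_, fun e he => ?_⟩
    · obtain ⟨b, hb, hba⟩ := Finset.mem_image.1 h1
      rwa [← castV_injective hba]
    · have := h2 (castV e) (Finset.mem_image_of_mem _ he)
      rwa [val_castV, val_castV] at this
  · rintro ⟨h1, h2⟩
    refine ⟨Finset.mem_image_of_mem _ h1, fun b hb => ?_⟩
    obtain ⟨e, he, rfl⟩ := Finset.mem_image.1 hb
    rw [val_castV, val_castV]
    exact h2 e he

theorem mem_hyp {n : ℕ} (f : TropPoly n) (x : V n) :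
    x ∈ f.hyp ↔ ∃ a ∈ act (realA f) (realc f) x, ∃ b ∈ act (realA f) (realc f) x, a ≠ b := by
  classical
  constructor
  · rintro ⟨a, ha, b, hb, hab, h1, h2⟩
    exact ⟨castV a, (castV_mem_act f a x).2 ⟨ha, h1⟩, castV b, (castV_mem_act f b x).2 ⟨hb, h2⟩,
      fun h => hab (castV_injective h)⟩
  · rintro ⟨a', ha', b', hb', hab⟩
    obtain ⟨a, _, rfl⟩ := Finset.mem_image.1 (mem_act.1 ha').1
    obtain ⟨b, _, rfl⟩ := Finset.mem_image.1 (mem_act.1 hb').1
    rw [castV_mem_act] at ha' hb'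
    exact ⟨a, ha'.1, b, hb'.1, fun h => hab (by rw [h]), ha'.2, hb'.2⟩

theorem onAll_eq {n k : ℕ} (f : Fin k → TropPoly n) :
    OnAll (fun i => realA (f i)) (fun i => realc (f i)) = ⋂ i, (f i).hyp := by
  ext x
  simp only [OnAll, Set.mem_ofPred_eq, Set.mem_iInter, mem_hyp]

theorem isLimit_iff {n k : ℕ} (f : Fin k → TropPoly n) (J : Finset (Fin k)) (v : Fin k → V n)
    (p : V n) : IsLimit (fun i => realA (f i)) (fun i => realc (f i)) J v p ↔
      ∀ δ > 0, ∃ ε₀ > 0, ∀ ε : ℝ, 0 < ε → ε < ε₀ →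
        ∃ x, ‖x - p‖ < δ ∧ ∀ j ∈ J, x - ε • v j ∈ (f j).hyp := by
  simp only [IsLimit, mem_hyp]

/-- the conclusion of `general`, as a statement -/
def General : Prop := ∀ (n : ℕ) (ι : Type) [Fintype ι] [DecidableEq ι] (A : ι → Finset (V n))
    (c : ι → V n → ℝ), (∀ j, (A j).Nonempty) → n ≤ Fintype.card ι →
    (∀ J : Finset ι, J.card = n → Ind A J) → ∀ p, p ∈ OnAll A c →
    ∃ q ∈ connectedComponentIn (OnAll A c) p, ∃ J : Finset ι, J.card = n ∧ Ind (acts A c q) J

theorem final (hG : General) (hE : TaskE) (hNear : TaskNear) (hStab : TaskStab) (hGen : TaskGen)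
    {n k : ℕ} (hk : n < k) (f : Fin k → TropPoly n)
    (h : ∀ J : Finset (Fin k), J.card = n → (Stable f J).Nonempty)
    (p : Fin n → ℝ) (hp : p ∈ ⋂ i, (f i).hyp) :
    ∃ q ∈ connectedComponentIn (⋂ i, (f i).hyp) p, ∃ J : Finset (Fin k), J.card = n ∧
      q ∈ Stable f J := by
  obtain ⟨q, hq, J, hJ, hind⟩ := hG n (Fin k) (fun i => realA (f i)) (fun i => realc (f i))
    (fun j => by
      obtain ⟨a, ha⟩ := (f j).nonempty
      classical
      exact ⟨castV a, Finset.mem_image_of_mem _ ha⟩) (by simpa using hk.le)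
    (fun J hJ => by
      obtain ⟨p, P, hP, hPv⟩ := h J hJ
      exact hGen n (Fin k) _ (fun i => realc (f i)) J P hP fun v hv =>
        ⟨p, (isLimit_iff f J v p).2 (hPv v hv)⟩)
    p (by rw [onAll_eq]; exact hp)
  refine ⟨q, by rw [← onAll_eq]; exact hq, J, hJ, 1, one_ne_zero, fun v _ => ?_⟩
  exact (isLimit_iff f J v q).1 (hStab hE hNear n (Fin k) _ _ J v q hJ hind)

end Pool.Agent.H53.ST
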