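import Pool.Agent.H53.ST.Stmts

/-! Assembly: the general theorem for tropical polynomials with real exponents. -/

set_option autoImplicit false

namespace Pool.Agent.H53.ST

open Matrix Topology

theorem Ind.card_le {n : ℕ} {ι : Type} {A : ι → Finset (V n)} {J : Finset ι} (h : Ind A J) :
    J.card ≤ n := by
  obtain ⟨a, b, -, hli⟩ := h
  have := hli.fintype_card_le_finrank
  simpa using this

theorem ind_empty {n : ℕ} {ι : Type} (A : ι → Finset (V n)) : Ind A ∅ := by
  refine ⟨0, 0, by simp, ?_⟩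
  exact linearIndependent_empty_type

theorem mem_act {n : ℕ} {A : Finset (V n)} {c : V n → ℝ} {x a : V n} :
    a ∈ act A c x ↔ a ∈ A ∧ ∀ b ∈ A, val c b x ≤ val c a x := by
  classical
  simp [act]

theorem act_nonempty {n : ℕ} {A : Finset (V n)} (hA : A.Nonempty) (c : V n → ℝ) (x : V n) :
    (act A c x).Nonempty := by
  obtain ⟨a, ha, hmax⟩ := Finset.exists_max_image A (fun a => val c a x) hA
  exact ⟨a, mem_act.2 ⟨ha, hmax⟩⟩

theorem general (hE : TaskE) (hSeg : TaskSeg) (hPerp : TaskPerp) (hFix : TaskFix)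
    (hConn : TaskConn) (hNear : TaskNear) (hMove : TaskMove) (hR2 : TaskR2) (hSmall : TaskSmall)
    (hTC : TaskTransConv) (hTight : TaskTight) (hStep : TaskStep) (hLP : TaskLP)
    (hMaxAtt : TaskMaxAtt) (hMaxP : TaskMaxP)
    (n : ℕ) (ι : Type) [Fintype ι] [DecidableEq ι] (A : ι → Finset (V n)) (c : ι → V n → ℝ)
    (hA : ∀ j, (A j).Nonempty) (hn : n ≤ Fintype.card ι)
    (hInd : ∀ J : Finset ι, J.card = n → Ind A J) (p : V n) (hp : p ∈ OnAll A c) :
    ∃ q ∈ connectedComponentIn (OnAll A c) p, ∃ J : Finset ι, J.card = n ∧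
      Ind (acts A c q) J := by
  classical
  set C := connectedComponentIn (OnAll A c) p with hC
  set P : ℕ → Prop := fun k => ∃ q ∈ C, ∃ J : Finset ι, J.card = k ∧ Ind (acts A c q) J with hP
  have hpC : p ∈ C := mem_connectedComponentIn hp
  have h0 : P 0 := ⟨p, hpC, ∅, by simp, ind_empty _⟩
  set m := Nat.findGreatest P n with hm
  have hPm : P m := Nat.findGreatest_spec (m := 0) (Nat.zero_le _) h0
  have hmn : m ≤ n := Nat.findGreatest_le n
  rcases hmn.eq_or_lt with hmn | hmn
  · obtain ⟨q, hq, J, hJ, hJ'⟩ := hPm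
    exact ⟨q, hq, J, hJ.trans hmn, hJ'⟩
  exfalso
  have hmax : ∀ q ∈ C, ∀ J, Ind (acts A c q) J → J.card ≤ m := by
    intro q hq J hJ
    by_contra hlt
    push Not at hlt
    exact Nat.findGreatest_is_greatest (P := P) (n := n) hlt hJ.card_le ⟨q, hq, J, rfl, hJ⟩
  obtain ⟨q0, hq0, J', hJ'm, hJ'⟩ := hPm
  have hnot : ∀ q ∈ C, ∀ i, i ∉ J' → ¬ Ind (acts A c q) (insert i J') := by
    intro q hq i hi hind
    have := hmax q hq _ hind
    rw [Finset.card_insert_of_notMem hi] at this
    omega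
  set R := Reach A c J' q0 with hR
  have hq0R : q0 ∈ R := Relation.ReflTransGen.refl
  have hstepR : ∀ q ∈ R, ∀ y, Adj A c J' q y → y ∈ R := fun q hq y hy =>
    Relation.ReflTransGen.tail hq hy
  have hRC : ∀ q ∈ R, q ∈ C ∧ Ind (acts A c q) J' := by
    intro q hq
    induction hq with
    | refl => exact ⟨hq0, hJ'⟩
    | tail _ hadj ih =>
      rename_i b y _
      obtain ⟨hbC, _⟩ := ih
      have hbO : b ∈ OnAll A c := connectedComponentIn_subset _ _ hbC
      have h1 := (hConn hSeg hPerp hFix n ι A c b y J' hbO (hnot b hbC) hadj).1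
      have h2 : C = connectedComponentIn (OnAll A c) b := connectedComponentIn_eq hbC
      exact ⟨by rw [h2]; exact h1, hadj.2⟩
  have hRO : ∀ q ∈ R, q ∈ OnAll A c := fun q hq => connectedComponentIn_subset _ _ (hRC q hq).1
  have hconst : ∀ i, i ∉ J' → ∀ q ∈ R, act (A i) (c i) q = act (A i) (c i) q0 := by
    intro i hi q hq
    induction hq with
    | refl => rfl
    | tail hb hadj ih =>
      rename_i b y
      have hbR : b ∈ R := hb
      have hyR : y ∈ R := hstepR b hbR y hadj
      rw [← ih]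
      rcases hadj.1 with h | h
      · exact (hConn hSeg hPerp hFix n ι A c b y J' (hRO b hbR) (hnot b (hRC b hbR).1) hadj).2
          i hi h
      · have hadj' : Adj A c J' y b := ⟨Or.inl h, (hRC b hbR).2⟩
        exact ((hConn hSeg hPerp hFix n ι A c y b J' (hRO y hyR) (hnot y (hRC y hyR).1) hadj').2
          i hi h).symm
  -- the linear functions which are constant on `R`
  let L : Submodule ℝ (V n) :=
    { carrier := {l | ∀ y ∈ R, l ⬝ᵥ (y - q0) = 0}
      add_mem' := by
        intro a b ha hb y hy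
        rw [add_dotProduct, ha y hy, hb y hy, add_zero]
      zero_mem' := by
        intro y _
        exact zero_dotProduct _
      smul_mem' := by
        intro r a ha y hy
        rw [smul_dotProduct, ha y hy, smul_zero] }
  have hLmem : ∀ l, l ∈ L ↔ ∀ y ∈ R, l ⬝ᵥ (y - q0) = 0 := fun l => Iff.rfl
  have hmove : ∀ (l q : V n) (a b : ι → V n),
      (∀ j ∈ J', a j ∈ act (A j) (c j) q ∧ b j ∈ act (A j) (c j) q) →
      LinearIndependent ℝ (fun j : J' => a j - b j) →
      l ∉ Submodule.span ℝ (Set.range fun j : J' => a j - b j) →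
      ∃ y, (∀ j, act (A j) (c j) y ⊆ act (A j) (c j) q) ∧ Ind (acts A c y) J' ∧
        0 < l ⬝ᵥ (y - q) := by
    intro l q a b h1 h2 h3
    exact hMove hE hNear n ι A c q J' a b l h1 h2 (by omega) h3
  have hspan : ∀ q ∈ R, ∀ l ∈ L, ∀ a b : ι → V n,
      (∀ j ∈ J', a j ∈ act (A j) (c j) q ∧ b j ∈ act (A j) (c j) q) →
      LinearIndependent ℝ (fun j : J' => a j - b j) →
      l ∈ Submodule.span ℝ (Set.range fun j : J' => a j - b j) := by
    intro q hq l hl a b h1 h2
    by_contra h3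
    obtain ⟨y, hy1, hy2, hy3⟩ := hmove l q a b h1 h2 h3
    have hyR : y ∈ R := hstepR q hq y ⟨Or.inl hy1, hy2⟩
    have e1 := hl y hyR
    have e2 := hl q hq
    have : l ⬝ᵥ (y - q) = l ⬝ᵥ (y - q0) - l ⬝ᵥ (q - q0) := by
      rw [← dotProduct_sub]; congr 1; abel
    rw [this, e1, e2] at hy3
    simp at hy3
  have hsm : ∀ q ∈ R, ∃ S, S ⊆ J' ∧ Module.finrank ℝ (W (acts A c q) S) = S.card ∧
      L ≤ W (acts A c q) S ∧ ∀ T, T ⊆ J' → Module.finrank ℝ (W (acts A c q) T) = T.card →
        L ≤ W (acts A c q) T → S ⊆ T := by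
    intro q hq
    refine hSmall n ι (acts A c q) J' L (hTC n ι _ J' (hRC q hq).2) ?_
    intro l hl
    exact hR2 n ι (acts A c q) J' l (hRC q hq).2 (fun a b h1 h2 => hspan q hq l hl a b h1 h2)
  obtain ⟨S, hSJ, hSt, hSL, hSmin⟩ := hsm q0 hq0R
  have hS : ∀ q ∈ R, (Module.finrank ℝ (W (acts A c q) S) = S.card ∧
      L ≤ W (acts A c q) S ∧ (∀ T, T ⊆ J' → Module.finrank ℝ (W (acts A c q) T) = T.card →
        L ≤ W (acts A c q) T → S ⊆ T)) ∧ ∀ j ∈ S, act (A j) (c j) q = act (A j) (c j) q0 := by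
    intro q hq
    induction hq with
    | refl => exact ⟨⟨hSt, hSL, hSmin⟩, fun _ _ => rfl⟩
    | tail hb hadj ih =>
      rename_i b y
      have hbR : b ∈ R := hb
      have hyR : y ∈ R := hstepR b hbR y hadj
      obtain ⟨⟨b1, b2, b3⟩, b4⟩ := ih
      obtain ⟨T, t0, t1, t2, t3⟩ := hsm y hyR
      rcases hadj.1 with h | h
      · obtain ⟨e, e'⟩ := hStep hTight hPerp n ι A c b y J' S T L h hadj.2 hSJ b1 b2 b3 t0 t1 t2 t3
        subst e
        exact ⟨⟨t1, t2, t3⟩, fun j hj => (e' j hj).trans (b4 j hj)⟩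
      · obtain ⟨e, e'⟩ := hStep hTight hPerp n ι A c y b J' T S L h (hRC b hbR).2 t0 t1 t2 t3 hSJ
          b1 b2 b3
        subst e
        exact ⟨⟨t1, t2, t3⟩, fun j hj => (e' j hj).symm.trans (b4 j hj)⟩
  have hWL : W (acts A c q0) S ≤ L := by
    refine Submodule.span_le.2 ?_
    rintro v ⟨j, hj, a, ha, b, hb, rfl⟩
    intro y hy
    have hy' := (hS y hy).2 j hj
    have ha' : a ∈ act (A j) (c j) y := by rw [hy']; exact ha
    have hb' : b ∈ act (A j) (c j) y := by rw [hy']; exact hb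
    have ha0 := mem_act.1 ha
    have hb0 := mem_act.1 hb
    have ha1 := mem_act.1 ha'
    have hb1 := mem_act.1 hb'
    have e1 := ha0.2 b hb0.1
    have e2 := hb0.2 a ha0.1
    have e3 := ha1.2 b hb1.1
    have e4 := hb1.2 a ha1.1
    simp only [val] at e1 e2 e3 e4
    rw [sub_dotProduct, dotProduct_sub, dotProduct_sub]
    linarith
  have hLe : L = W (acts A c q0) S := le_antisymm hSL hWL
  have hLr : Module.finrank ℝ L = S.card := by rw [hLe]; exact hSt
  obtain ⟨i0, hi0⟩ : ∃ i0, i0 ∉ J' := by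
    by_contra hall
    push Not at hall
    have : J' = Finset.univ := Finset.eq_univ_iff_forall.2 hall
    rw [this, Finset.card_univ] at hJ'm
    omega
  have hcst : ∀ j ∈ insert i0 S, ∀ q ∈ R, act (A j) (c j) q = act (A j) (c j) q0 := by
    intro j hj q hq
    rcases Finset.mem_insert.1 hj with rfl | hj
    · exact hconst _ hi0 q hq
    · exact (hS q hq).2 j hj
  have hWA : W A (insert i0 S) ≤ L := by
    refine Submodule.span_le.2 ?_
    rintro v ⟨j, hj, b, hb, b', hb', rfl⟩
    obtain ⟨a, ha⟩ := act_nonempty (hA j) (c j) q0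
    have key : ∀ b ∈ A j, b - a ∈ L := by
      intro b hb
      have hbd : ∀ x ∈ R, (b - a) ⬝ᵥ x ≤ c j a - c j b := by
        intro x hx
        have hax : a ∈ act (A j) (c j) x := by rw [hcst j hj x hx]; exact ha
        have := (mem_act.1 hax).2 b hb
        simp only [val] at this
        rw [sub_dotProduct]
        linarith
      have hatt := hMaxAtt hLP n ι A c J' q0 (b - a) _ hA hJ' hbd
      have heq := hMaxP hSeg hNear n ι A c J' q0 (b - a) hA hJ' (hmove (b - a)) hatt
      intro x hx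
      rw [dotProduct_sub, heq x hx, sub_self]
    have := L.sub_mem (key b hb) (key b' hb')
    simpa using this
  have hi0S : i0 ∉ S := fun h => hi0 (hSJ h)
  have hcard : (insert i0 S).card = S.card + 1 := Finset.card_insert_of_notMem hi0S
  have hSm : S.card ≤ m := hJ'm ▸ Finset.card_le_card hSJ
  obtain ⟨J, hJ1, hJ2⟩ := Finset.exists_superset_card_eq (s := insert i0 S) (n := n)
    (by omega) hn
  have h1 := hTC n ι A J (hInd J hJ2) (insert i0 S) hJ1
  have h2 := Submodule.finrank_mono hWA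
  omega

end Pool.Agent.H53.ST
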