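import Pool.Agent.H53.ST.General

set_option autoImplicit false

namespace Pool.Agent.H53.ST.MaxPAlt

open Matrix Topology Pool.Agent.H53.ST

theorem main : Pool.Agent.H53.ST.TaskMaxP := by
  intro hSeg hNear n ι _ A c J p h hA hp hmove hatt
  obtain ⟨q, hqR, hq⟩ := hatt
  have hR : ∀ x ∈ Reach A c J p, Ind (acts A c x) J := by
    intro x hx
    induction hx with
    | refl => exact hp
    | tail _ hadj _ => exact hadj.2
  have hst : ∀ x ∈ Reach A c J p, ∀ y, Adj A c J x y → y ∈ Reach A c J p :=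
    fun x hx y hy => Relation.ReflTransGen.tail hx hy
  have orth : ∀ (j : ι) (u w a b : V n), a ∈ act (A j) (c j) u → b ∈ act (A j) (c j) u →
      a ∈ act (A j) (c j) w → b ∈ act (A j) (c j) w → (a - b) ⬝ᵥ (w - u) = 0 := by
    intro j u w a b h1 h2 h3 h4
    rw [mem_act] at h1 h2 h3 h4
    have e1 := h1.2 b h2.1
    have e2 := h2.2 a h1.1
    have e3 := h3.2 b h4.1
    have e4 := h4.2 a h3.1
    simp only [val] at e1 e2 e3 e4
    rw [sub_dotProduct, dotProduct_sub, dotProduct_sub]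
    linarith
  -- from special to generic
  have s1 : ∀ u ∈ Reach A c J p, ∀ w ∈ Reach A c J p,
      (∀ j, act (A j) (c j) w ⊆ act (A j) (c j) u) → h ⬝ᵥ u = h ⬝ᵥ q → h ⬝ᵥ w = h ⬝ᵥ q := by
    intro u hu w hw hsub he
    obtain ⟨a, b, hab, hli⟩ := hR w hw
    have hab' : ∀ j ∈ J, a j ∈ act (A j) (c j) u ∧ b j ∈ act (A j) (c j) u :=
      fun j hj => ⟨hsub j (hab j hj).1, hsub j (hab j hj).2⟩
    have hspan : h ∈ Submodule.span ℝ (Set.range fun j : J => a j - b j) := by
      by_contra hns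
      obtain ⟨y, hy1, hy2, hy3⟩ := hmove u a b hab' hli hns
      have := hq y (hst u hu y ⟨Or.inl hy1, hy2⟩)
      rw [dotProduct_sub, he] at hy3
      linarith
    have h0 : h ⬝ᵥ (w - u) = 0 := by
      refine Submodule.span_induction (p := fun v _ => v ⬝ᵥ (w - u) = 0) ?_ ?_ ?_ ?_ hspan
      · rintro v ⟨j, rfl⟩
        exact orth j u w _ _ (hab' j j.2).1 (hab' j j.2).2 (hab j j.2).1 (hab j j.2).2
      · exact zero_dotProduct _
      · intro x y _ _ hx hy
        rw [add_dotProduct, hx, hy, add_zero]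
      · intro r x _ hx
        rw [smul_dotProduct, hx, smul_zero]
    rw [dotProduct_sub] at h0
    linarith
  -- from generic to special
  have s2 : ∀ u ∈ Reach A c J p, ∀ w ∈ Reach A c J p,
      (∀ j, act (A j) (c j) w ⊆ act (A j) (c j) u) → h ⬝ᵥ w = h ⬝ᵥ q → h ⬝ᵥ u = h ⬝ᵥ q := by
    intro u hu w hw hsub he
    obtain ⟨δ, hδ, hnear⟩ := hNear n ι A c w
    obtain ⟨t, ht, htδ⟩ : ∃ t : ℝ, 0 < t ∧ ‖t • (w - u)‖ < δ := by
      refine ⟨δ / (2 * (‖w - u‖ + 1)), by positivity, ?_⟩
      rw [norm_smul, Real.norm_of_nonneg (by positivity)]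
      have : 0 ≤ ‖w - u‖ := norm_nonneg _
      rw [div_mul_eq_mul_div, div_lt_iff₀ (by positivity)]
      nlinarith
    set z := w + t • (w - u) with hz
    have hzs : ∀ j, act (A j) (c j) z ⊆ act (A j) (c j) w := by
      intro j
      refine hnear z ?_ j
      rw [hz, add_sub_cancel_left]
      exact htδ
    have hw' : w = u + (1 / (1 + t)) • (z - u) := by
      funext k
      simp only [hz, Pi.add_apply, Pi.smul_apply, Pi.sub_apply, smul_eq_mul]
      field_simp
      ring
    have hact : ∀ j, act (A j) (c j) w = act (A j) (c j) z := by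
      intro j
      have := hSeg n (A j) (c j) u z (fun a ha => hsub j (hzs j ha)) (1 / (1 + t)) (by positivity)
        (by rw [div_le_one (by positivity)]; linarith)
      rw [← hw'] at this
      exact this
    have hzR : z ∈ Reach A c J p := by
      refine hst w hw z ⟨Or.inl hzs, ?_⟩
      have : acts A c z = acts A c w := by
        funext j
        exact (hact j).symm
      rw [this]
      exact hR w hw
    have h1 := hq z hzR
    have h2 := hq u hu
    have h3 : h ⬝ᵥ z = h ⬝ᵥ w + t * (h ⬝ᵥ w - h ⬝ᵥ u) := by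
      rw [hz, dotProduct_add, dotProduct_smul, dotProduct_sub, smul_eq_mul]
    rw [h3, he] at h1
    have h4 : t * (h ⬝ᵥ q - h ⬝ᵥ u) ≤ 0 := by linarith
    have h5 : h ⬝ᵥ q - h ⬝ᵥ u ≤ 0 := by
      by_contra hc
      push Not at hc
      have := mul_pos ht hc
      linarith
    linarith
  have key : ∀ x ∈ Reach A c J p, (h ⬝ᵥ x = h ⬝ᵥ q ↔ h ⬝ᵥ p = h ⬝ᵥ q) := by
    intro x hx
    induction hx with
    | refl => exact Iff.rfl
    | tail hb hadj ih =>
      rename_i b y
      have hbR : b ∈ Reach A c J p := hb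
      have hyR : y ∈ Reach A c J p := hst b hbR y hadj
      rw [← ih]
      rcases hadj.1 with hs | hs
      · exact ⟨s2 b hbR y hyR hs, s1 b hbR y hyR hs⟩
      · exact ⟨s1 y hyR b hbR hs, s2 y hyR b hbR hs⟩
  have hpq : h ⬝ᵥ p = h ⬝ᵥ q := (key q hqR).1 rfl
  intro x hx
  rw [hpq]
  exact (key x hx).2 hpq

end Pool.Agent.H53.ST.MaxPAlt
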