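import Mathlib

/-! Blueprint for MP_835643_co: every connected component of an overdetermined tropical intersection
contains a stable intersection point. Definitions and statements of the tasks. -/

set_option autoImplicit false

namespace Pool.Agent.H53.ST

open Matrix Topology

/-- the space -/
abbrev V (n : ℕ) : Type := Fin n → ℝ

/-- the value at `x` of the term with exponent `a` -/
def val {n : ℕ} (c : V n → ℝ) (a x : V n) : ℝ := c a + a ⬝ᵥ x

open Classical in
/-- the active exponents at `x` -/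
noncomputable def act {n : ℕ} (A : Finset (V n)) (c : V n → ℝ) (x : V n) : Finset (V n) :=
  A.filter fun a => ∀ b ∈ A, val c b x ≤ val c a x

/-- the active exponents of a family -/
noncomputable def acts {n : ℕ} {ι : Type} (A : ι → Finset (V n)) (c : ι → V n → ℝ) (x : V n) :
    ι → Finset (V n) := fun j => act (A j) (c j) x

/-- there are linearly independent differences, one for each index in `J` -/
def Ind {n : ℕ} {ι : Type} (A : ι → Finset (V n)) (J : Finset ι) : Prop :=
  ∃ a b : ι → V n, (∀ j ∈ J, a j ∈ A j ∧ b j ∈ A j) ∧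
    LinearIndependent ℝ (fun j : J => a j - b j)

/-- the span of the differences with indices in `S` -/
def W {n : ℕ} {ι : Type} (A : ι → Finset (V n)) (S : Finset ι) : Submodule ℝ (V n) :=
  Submodule.span ℝ {v | ∃ j ∈ S, ∃ a ∈ A j, ∃ b ∈ A j, v = a - b}

/-- `x` is on all hypersurfaces -/
def OnAll {n : ℕ} {ι : Type} (A : ι → Finset (V n)) (c : ι → V n → ℝ) : Set (V n) :=
  {x | ∀ i, ∃ a ∈ act (A i) (c i) x, ∃ b ∈ act (A i) (c i) x, a ≠ b}

/-! ### Existence of solutions -/

/-- solution of a linear system (n independent equations) -/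
def TaskLin : Prop := ∀ (n : ℕ) (ι : Type) [Fintype ι] (u : ι → V n), Fintype.card ι = n →
  LinearIndependent ℝ u → ∃ L : (ι → ℝ) →ₗ[ℝ] V n, ∀ (r : ι → ℝ) (x : V n),
    (∀ j, u j ⬝ᵥ x = r j) ↔ x = L r

/-- all sets but one have two elements: the equations of the others define a line, on which the
maximum of the affine functions `val (c j₀) a`, `a ∈ A j₀`, is attained at some point by two
functions with different slopes -/
def TaskLine : Prop := ∀ (n : ℕ) (ι : Type) [Fintype ι] [DecidableEq ι]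
  (A : ι → Finset (V n)) (c : ι → V n → ℝ) (j₀ : ι), Fintype.card ι = n → Ind A Finset.univ →
  (∀ j, j ≠ j₀ → (A j).card = 2) → ∃ x, Ind (acts A c x) Finset.univ

/-- closedness: for each of the finitely many transversals `(a, b)` the solution `x` of the linear
system is an affine function of `t` (TaskLin) and the conditions are closed -/
def TaskClosed : Prop := ∀ (n : ℕ) (ι : Type) [Fintype ι] [DecidableEq ι]
  (A : ι → Finset (V n)) (c d : ι → V n → ℝ), Fintype.card ι = n →
  IsClosed {t : ℝ | ∃ x, Ind (acts A (fun j a => c j a + t * d j a) x) Finset.univ}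

/-- openness at `t` if the solution at `t` does not have all exponents active: put
`A' = acts A c_t x`; the solutions for `A'` and constants `c_{t'}` with `t'` near `t` are near `x`
(they are given by the finitely many transversals in `A'`, all of which give `x` for `t' = t`) -/
def TaskOpen : Prop := ∀ (n : ℕ) (ι : Type) [Fintype ι] [DecidableEq ι]
  (A : ι → Finset (V n)) (c d : ι → V n → ℝ) (t : ℝ) (x : V n), Fintype.card ι = n →
  Ind (acts A (fun j a => c j a + t * d j a) x) Finset.univ →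
  (∀ c' : ι → V n → ℝ, ∃ x', Ind (acts (acts A (fun j a => c j a + t * d j a) x) c' x')
    Finset.univ) →
  {t' : ℝ | ∃ x', Ind (acts A (fun j a => c j a + t' * d j a) x') Finset.univ} ∈ 𝓝 t

/-- raising one coefficient: `d` is the indicator of `(j₀, e)`. The set of the `t` with a solution is
closed, open and not empty (for very negative `t` the solution for `A` without `e` works) -/
def TaskRaise : Prop := ∀ (n : ℕ) (ι : Type) [Fintype ι] [DecidableEq ι]
  (A : ι → Finset (V n)) (c : ι → V n → ℝ) (j₀ : ι) (e : V n), Fintype.card ι = n → e ∈ A j₀ →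
  (∀ A' : ι → Finset (V n), (∀ j, A' j ⊆ A j) → A' ≠ A → Ind A' Finset.univ →
    ∀ c' : ι → V n → ℝ, ∃ x', Ind (acts A' c' x') Finset.univ) →
  Ind (Function.update A j₀ ((A j₀).erase e)) Finset.univ →
  (∀ (t : ℝ) (x : V n), acts A (fun j a => c j a + t * (if j = j₀ ∧ a = e then 1 else 0)) x ≠ A) →
  ∃ x, Ind (acts A c x) Finset.univ

/-- existence of solutions (induction on the sum of the cardinalities; cases: at most one set with at
least three elements (TaskLine); two such sets `A j₀ ∋ e`, `A j₁ ∋ g`, both not in the transversal: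
if `TaskRaise` does not apply to `c` it applies to `c + δ 1_(j₁,g)` for all `δ ≠ 0`, and TaskClosed) -/
def TaskE : Prop := ∀ (n : ℕ) (ι : Type) [Fintype ι] [DecidableEq ι]
  (A : ι → Finset (V n)) (c : ι → V n → ℝ), Fintype.card ι = n → Ind A Finset.univ →
  ∃ x, Ind (acts A c x) Finset.univ

/-! ### Transversals -/

/-- Rado's theorem for subspaces -/
def TaskRado : Prop := ∀ (n : ℕ) (ι : Type) [Fintype ι] [DecidableEq ι]
  (U : ι → Submodule ℝ (V n)), (∀ S : Finset ι, S.card ≤ Module.finrank ℝ (⨆ j ∈ S, U j : Submodule ℝ (V n))) →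
  ∃ u : ι → V n, (∀ j, u j ∈ U j) ∧ LinearIndependent ℝ u

/-- from Rado's theorem, exchanging the vectors by differences one by one -/
def TaskTrans : Prop := ∀ (n : ℕ) (ι : Type) [DecidableEq ι] (A : ι → Finset (V n))
  (J : Finset ι), (∀ S, S ⊆ J → S.card ≤ Module.finrank ℝ (W A S)) → Ind A J

/-- the easy direction -/
def TaskTransConv : Prop := ∀ (n : ℕ) (ι : Type) (A : ι → Finset (V n)) (J : Finset ι), Ind A J →
  ∀ S, S ⊆ J → S.card ≤ Module.finrank ℝ (W A S)

/-- a vector in the span of every transversal is in the span of a tight set (Rado's theorem for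
`J` and one more set `{0, ℓ}`) -/
def TaskR2 : Prop := ∀ (n : ℕ) (ι : Type) [DecidableEq ι] (A : ι → Finset (V n))
  (J : Finset ι) (ℓ : V n), Ind A J →
  (∀ a b : ι → V n, (∀ j ∈ J, a j ∈ A j ∧ b j ∈ A j) →
    LinearIndependent ℝ (fun j : J => a j - b j) →
    ℓ ∈ Submodule.span ℝ (Set.range fun j : J => a j - b j)) →
  ∃ S, S ⊆ J ∧ Module.finrank ℝ (W A S) = S.card ∧ ℓ ∈ W A S

/-- the smallest tight set whose span contains `L` (tight sets are closed under unions and, by
submodularity, under intersections, with `W (S ∩ T) = W S ⊓ W T`) -/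
def TaskSmall : Prop := ∀ (n : ℕ) (ι : Type) [DecidableEq ι] (A : ι → Finset (V n))
  (J : Finset ι) (L : Submodule ℝ (V n)), (∀ S, S ⊆ J → S.card ≤ Module.finrank ℝ (W A S)) →
  (∀ ℓ ∈ L, ∃ S, S ⊆ J ∧ Module.finrank ℝ (W A S) = S.card ∧ ℓ ∈ W A S) →
  ∃ S, S ⊆ J ∧ Module.finrank ℝ (W A S) = S.card ∧ L ≤ W A S ∧
    ∀ T, T ⊆ J → Module.finrank ℝ (W A T) = T.card → L ≤ W A T → S ⊆ T

/-! ### Local structure -/

/-- near `q` only active exponents of `q` are active -/
def TaskNear : Prop := ∀ (n : ℕ) (ι : Type) [Finite ι] (A : ι → Finset (V n)) (c : ι → V n → ℝ)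
  (q : V n), ∃ δ > 0, ∀ y, ‖y - q‖ < δ → ∀ j, act (A j) (c j) y ⊆ act (A j) (c j) q

/-- the active exponents on a segment -/
def TaskSeg : Prop := ∀ (n : ℕ) (A : Finset (V n)) (c : V n → ℝ) (q y : V n),
  act A c y ⊆ act A c q → ∀ s : ℝ, 0 < s → s ≤ 1 → act A c (q + s • (y - q)) = act A c y

/-- if all active differences are orthogonal to `y - q`, then the active exponents are the same -/
def TaskPerp : Prop := ∀ (n : ℕ) (A : Finset (V n)) (c : V n → ℝ) (q y : V n),
  act A c y ⊆ act A c q → (∀ a ∈ act A c q, ∀ b ∈ act A c q, (a - b) ⬝ᵥ (y - q) = 0) →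
  act A c y = act A c q

/-- the vectors of tight sets are orthogonal to `y - q` (a transversal `u` at `y` is one at `q`, the
`u j`, `j ∈ S`, span `W (acts q) S`, and `u j ⬝ᵥ (y - q) = 0`) -/
def TaskTight : Prop := ∀ (n : ℕ) (ι : Type) (A : ι → Finset (V n)) (c : ι → V n → ℝ)
  (q y : V n) (J S : Finset ι), (∀ j, act (A j) (c j) y ⊆ act (A j) (c j) q) →
  Ind (acts A c y) J → S ⊆ J → Module.finrank ℝ (W (acts A c q) S) = S.card →
  ∀ v ∈ W (acts A c q) S, v ⬝ᵥ (y - q) = 0

/-- the same for an index `i` such that `J ∪ {i}` is dependent at `q` -/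
def TaskFix : Prop := ∀ (n : ℕ) (ι : Type) [DecidableEq ι] (A : ι → Finset (V n))
  (c : ι → V n → ℝ) (q y : V n) (J : Finset ι) (i : ι),
  (∀ j, act (A j) (c j) y ⊆ act (A j) (c j) q) → Ind (acts A c y) J → i ∉ J →
  ¬ Ind (acts A c q) (insert i J) →
  ∀ a ∈ act (A i) (c i) q, ∀ b ∈ act (A i) (c i) q, (a - b) ⬝ᵥ (y - q) = 0

/-- a move in a direction with `0 < ℓ ⬝ᵥ (y - q)`: apply TaskE to the sets `act (A j) (c j) q`,
`j ∈ J`, with constants `0`, `{0, ℓ}` with constants `1, 0` (so `ℓ ⬝ᵥ x = 1`), and `{0, w}` with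
constants `0` for further vectors `w` which complete the transversal and `ℓ` to a basis; then
`y = q + s x` for small `s > 0` (TaskNear) -/
def TaskMove : Prop := TaskE → TaskNear → ∀ (n : ℕ) (ι : Type) [Finite ι] [DecidableEq ι]
  (A : ι → Finset (V n)) (c : ι → V n → ℝ) (q : V n) (J : Finset ι) (a b : ι → V n) (ℓ : V n),
  (∀ j ∈ J, a j ∈ act (A j) (c j) q ∧ b j ∈ act (A j) (c j) q) →
  LinearIndependent ℝ (fun j : J => a j - b j) → J.card < n →
  ℓ ∉ Submodule.span ℝ (Set.range fun j : J => a j - b j) →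
  ∃ y, (∀ j, act (A j) (c j) y ⊆ act (A j) (c j) q) ∧ Ind (acts A c y) J ∧ 0 < ℓ ⬝ᵥ (y - q)

/-! ### Global structure -/

/-- neighbouring points -/
def Adj {n : ℕ} {ι : Type} (A : ι → Finset (V n)) (c : ι → V n → ℝ) (J : Finset ι) (q y : V n) :
    Prop :=
  ((∀ j, act (A j) (c j) y ⊆ act (A j) (c j) q) ∨ ∀ j, act (A j) (c j) q ⊆ act (A j) (c j) y) ∧
    Ind (acts A c y) J

/-- the points which can be reached from `p` -/
def Reach {n : ℕ} {ι : Type} (A : ι → Finset (V n)) (c : ι → V n → ℝ) (J : Finset ι) (p : V n) :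
    Set (V n) := {y | Relation.ReflTransGen (Adj A c J) p y}

/-- linear programming: a linear function which is bounded above on a polyhedron attains its maximum -/
def TaskLP : Prop := ∀ (n : ℕ) (κ : Type) [Finite κ] (g : κ → V n) (r : κ → ℝ) (h x₀ : V n) (M : ℝ),
  (∀ i, g i ⬝ᵥ x₀ ≤ r i) → (∀ x, (∀ i, g i ⬝ᵥ x ≤ r i) → h ⬝ᵥ x ≤ M) →
  ∃ x, (∀ i, g i ⬝ᵥ x ≤ r i) ∧ ∀ y, (∀ i, g i ⬝ᵥ y ≤ r i) → h ⬝ᵥ y ≤ h ⬝ᵥ x

/-- a linear function which is bounded above on `Reach` attains its maximum there (the set is the union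
of finitely many polyhedra `{x | ∀ j, act (A j) (c j) y ⊆ act (A j) (c j) x}`, `y ∈ Reach`) -/
def TaskMaxAtt : Prop := TaskLP → ∀ (n : ℕ) (ι : Type) [Finite ι] (A : ι → Finset (V n))
  (c : ι → V n → ℝ) (J : Finset ι) (p h : V n) (M : ℝ), (∀ j, (A j).Nonempty) →
  Ind (acts A c p) J → (∀ x ∈ Reach A c J p, h ⬝ᵥ x ≤ M) →
  ∃ q ∈ Reach A c J p, ∀ x ∈ Reach A c J p, h ⬝ᵥ x ≤ h ⬝ᵥ q

/-- the maximum principle: a linear function which is bounded above on `Reach` is constant. Conclusion
of TaskMaxAtt as a hypothesis; the set where the maximum is attained is closed under `Adj`: to a more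
generic point by the conclusion of TaskMove (`hmove`), to a more special point because the maximum is
attained at an interior point of a segment (TaskSeg) -/
def TaskMaxP : Prop := TaskSeg → TaskNear → ∀ (n : ℕ) (ι : Type) [Finite ι] (A : ι → Finset (V n))
  (c : ι → V n → ℝ) (J : Finset ι) (p h : V n), (∀ j, (A j).Nonempty) → Ind (acts A c p) J →
  (∀ (q : V n) (a b : ι → V n),
    (∀ j ∈ J, a j ∈ act (A j) (c j) q ∧ b j ∈ act (A j) (c j) q) →
    LinearIndependent ℝ (fun j : J => a j - b j) →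
    h ∉ Submodule.span ℝ (Set.range fun j : J => a j - b j) →
    ∃ y, (∀ j, act (A j) (c j) y ⊆ act (A j) (c j) q) ∧ Ind (acts A c y) J ∧ 0 < h ⬝ᵥ (y - q)) →
  (∃ q ∈ Reach A c J p, ∀ x ∈ Reach A c J p, h ⬝ᵥ x ≤ h ⬝ᵥ q) →
  ∀ x ∈ Reach A c J p, h ⬝ᵥ x = h ⬝ᵥ p

/-- one step: the smallest tight sets `S`, `T` whose spans contain `L` at `q` and at a more generic
point `y` agree, and the active exponents with these indices too -/
def TaskStep : Prop := TaskTight → TaskPerp → ∀ (n : ℕ) (ι : Type) [DecidableEq ι]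
  (A : ι → Finset (V n)) (c : ι → V n → ℝ) (q y : V n) (J S T : Finset ι)
  (L : Submodule ℝ (V n)), (∀ j, act (A j) (c j) y ⊆ act (A j) (c j) q) →
  Ind (acts A c y) J →
  S ⊆ J → Module.finrank ℝ (W (acts A c q) S) = S.card → L ≤ W (acts A c q) S →
  (∀ S', S' ⊆ J → Module.finrank ℝ (W (acts A c q) S') = S'.card → L ≤ W (acts A c q) S' → S ⊆ S') →
  T ⊆ J → Module.finrank ℝ (W (acts A c y) T) = T.card → L ≤ W (acts A c y) T →
  (∀ S', S' ⊆ J → Module.finrank ℝ (W (acts A c y) S') = S'.card → L ≤ W (acts A c y) S' → T ⊆ S') →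
  S = T ∧ ∀ j ∈ S, act (A j) (c j) y = act (A j) (c j) q

/-- neighbouring points are in the same connected component (TaskSeg, TaskPerp, TaskFix) -/
def TaskConn : Prop := TaskSeg → TaskPerp → TaskFix → ∀ (n : ℕ) (ι : Type) [DecidableEq ι]
  (A : ι → Finset (V n)) (c : ι → V n → ℝ) (q y : V n) (J : Finset ι), q ∈ OnAll A c →
  (∀ i, i ∉ J → ¬ Ind (acts A c q) (insert i J)) → Adj A c J q y →
  y ∈ connectedComponentIn (OnAll A c) q ∧ ∀ i, i ∉ J →
    ((∀ j, act (A j) (c j) y ⊆ act (A j) (c j) q) → act (A i) (c i) y = act (A i) (c i) q)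

/-! ### Stable intersections -/

/-- `p` is a limit of points of the intersection of the hypersurfaces translated by `ε v j` -/
def IsLimit {n : ℕ} {ι : Type} (A : ι → Finset (V n)) (c : ι → V n → ℝ) (J : Finset ι)
    (v : ι → V n) (p : V n) : Prop :=
  ∀ δ > 0, ∃ ε₀ > 0, ∀ ε : ℝ, 0 < ε → ε < ε₀ → ∃ x, ‖x - p‖ < δ ∧
    ∀ j ∈ J, ∃ a ∈ act (A j) (c j) (x - ε • v j), ∃ b ∈ act (A j) (c j) (x - ε • v j), a ≠ b

/-- independent active differences at `p` give limits for all `v` (TaskE for the sets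
`act (A j) (c j) p` with constants `- a ⬝ᵥ v j`, restricted to `J`; then `x = p + ε x₁`) -/
def TaskStab : Prop := TaskE → TaskNear → ∀ (n : ℕ) (ι : Type) [Finite ι] [DecidableEq ι]
  (A : ι → Finset (V n)) (c : ι → V n → ℝ) (J : Finset ι) (v : ι → V n) (p : V n), J.card = n →
  Ind (acts A c p) J → IsLimit A c J v p

/-- if for generic `v` (outside the zeros of a nonzero polynomial) there is a limit, then there are
independent differences. Else for each choice of `a j ≠ b j ∈ A j` there is a relation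
`∑ λ j (a j - b j) = 0`; then `∑ λ j (c j (a j) - c j (b j)) = ε ∑ λ j (a j - b j) ⬝ᵥ v j`, which is
false for small `ε` if `v` is outside the zeros of finitely many nonzero linear forms -/
def TaskGen : Prop := ∀ (n : ℕ) (ι : Type) [Fintype ι] [DecidableEq ι]
  (A : ι → Finset (V n)) (c : ι → V n → ℝ) (J : Finset ι) (P : MvPolynomial (ι × Fin n) ℝ),
  P ≠ 0 → (∀ v : ι → V n, MvPolynomial.eval (fun q => v q.1 q.2) P ≠ 0 →
    ∃ p, IsLimit A c J v p) → Ind A J

end Pool.Agent.H53.ST
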